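import Pool.Agent.Y138.KZ.Tasks

set_option autoImplicit false

open CategoryTheory AlgebraicGeometry TopologicalSpace Opposite Limits

namespace Pool.Agent.Y138.KZ

open Pool.Agent.H835R5

variable {F : Type} [Field F] [CharP F 2]

open PowerSeries in
theorem henFix (u : (PowerSeries F)) (hu : (X : (PowerSeries F)) ∣ u) : ∃ b : (PowerSeries F), b = 1 + u * b ^ 2 := by
  have : CharP (PowerSeries F) 2 := charP_of_injective_ringHom PowerSeries.C_injective 2
  let B : ℕ → (PowerSeries F) := fun N => ∑ k ∈ Finset.range N, u ^ (2 ^ k - 1)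
  have hrec : ∀ N, B (N + 1) = 1 + u * (B N) ^ 2 := by
    intro N
    show ∑ k ∈ Finset.range (N + 1), u ^ (2 ^ k - 1) = 1 + u * (∑ k ∈ Finset.range N, u ^ (2 ^ k - 1)) ^ 2
    rw [Finset.sum_range_succ', CharTwo.sum_sq, Finset.mul_sum, add_comm]
    congr 1
    refine Finset.sum_congr rfl fun k _ => ?_
    have h1 : 1 ≤ 2 ^ k := Nat.one_le_two_pow
    have : 2 ^ (k + 1) - 1 = 1 + (2 ^ k - 1) * 2 := by rw [pow_succ]; omega
    rw [this, pow_add, pow_one, pow_mul]
  have hdiv : ∀ m N, m ≤ N → (X : (PowerSeries F)) ^ m ∣ B N - B m := by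
    intro m N h
    have : B N - B m = ∑ k ∈ Finset.Ico m N, u ^ (2 ^ k - 1) := by
      rw [Finset.sum_Ico_eq_sub _ h]
    rw [this]
    refine Finset.dvd_sum fun k hk => ?_
    rw [Finset.mem_Ico] at hk
    have h2 : m ≤ 2 ^ k - 1 := by
      have : k < 2 ^ k := Nat.lt_two_pow_self
      omega
    exact (pow_dvd_pow _ h2).trans (pow_dvd_pow_of_dvd hu _)
  let b : (PowerSeries F) := PowerSeries.mk fun n => coeff n (B (n + 1))
  have hb : ∀ N, (X : (PowerSeries F)) ^ N ∣ b - B N := by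
    intro N
    rw [PowerSeries.X_pow_dvd_iff]
    intro m hm
    rw [map_sub, PowerSeries.coeff_mk]
    have := (PowerSeries.X_pow_dvd_iff.1 (hdiv (m + 1) N hm)) m (Nat.lt_succ_self m)
    rw [map_sub] at this
    rw [sub_eq_zero] at this ⊢
    exact this.symm
  refine ⟨b, ?_⟩
  rw [← sub_eq_zero]
  ext m
  rw [map_zero]
  have key : (X : (PowerSeries F)) ^ (m + 1) ∣ b - (1 + u * b ^ 2) := by
    have e : b - (1 + u * b ^ 2) = (b - B (m + 1 + 1)) - u * ((b - B (m + 1)) * (b + B (m + 1))) := by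
      rw [hrec (m + 1)]; ring
    rw [e]
    refine dvd_sub ((pow_dvd_pow _ (Nat.le_succ _)).trans (hb (m + 1 + 1))) ?_
    exact Dvd.dvd.mul_left (Dvd.dvd.mul_right (hb (m + 1)) _) _
  exact PowerSeries.X_pow_dvd_iff.1 key m (Nat.lt_succ_self m)

theorem taskHen : TaskHen F := by
  have : CharP (PowerSeries F) 2 := charP_of_injective_ringHom PowerSeries.C_injective 2
  intro s hs
  obtain ⟨b, hb⟩ := henFix (s ^ 3) (dvd_pow hs (by norm_num))
  refine ⟨s ^ 2 * b, Dvd.intro _ rfl, ?_⟩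
  have h2 : (2 : (PowerSeries F)) = 0 := CharTwo.two_eq_zero
  linear_combination s ^ 3 * hb + (s ^ 6 * b ^ 2) * h2


end Pool.Agent.Y138.KZ
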