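import Pool.Agent.Y138.KZ.Tasks

set_option autoImplicit false

open CategoryTheory AlgebraicGeometry TopologicalSpace Opposite Limits

namespace Pool.Agent.Y138.KZ

open Pool.Agent.H835R5

variable {F : Type} [Field F] [CharP F 2]

lemma cov2_isUnit {b : (PowerSeries F)} (hb : PowerSeries.X ∣ b) : IsUnit (1 + b) := by
  rw [PowerSeries.isUnit_iff_constantCoeff, map_add, map_one,
    PowerSeries.X_dvd_iff.mp hb, add_zero]
  exact isUnit_one

lemma cov2_two {K : Type*} [CommRing K] (e : (PowerSeries F) →+* K) : (2 : K) = 0 := by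
  have h4 := congrArg e (two_PS (F := F))
  rw [map_zero] at h4
  rw [← h4]
  exact (map_ofNat e 2).symm

lemma cov2_core {K : Type*} [Field K] (e : (PowerSeries F) →+* K) (a s : (PowerSeries F)) (hX : PowerSeries.X ∣ s)
    (has : (a * s) ^ 2 + a * s = s ^ 3) (W Z x y : K) (hW : W ^ 2 + W = Z ^ 3)
    (hWy : W * y = 1) (hZy : Z * y = x) (h1 : 1 + e a * x = 0)
    (h2 : (1 + W) * ((1 + e (a * s)) + W) = 0) : False := by
  have two : (2 : K) = 0 := cov2_two e
  have hXas : PowerSeries.X ∣ a * s := hX.mul_left a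
  have hu : e (1 + (a * s + (a * s) ^ 2)) ≠ 0 := by
    have h3 : PowerSeries.X ∣ a * s + (a * s) ^ 2 :=
      dvd_add hXas (dvd_pow hXas two_ne_zero)
    exact ((cov2_isUnit h3).map e).ne_zero
  have hW0 : W ≠ 0 := left_ne_zero_of_mul_eq_one hWy
  -- W = a Z
  have hWZ : W = e a * Z := by
    have h3 : W * (1 + e a * x) = 0 := by rw [h1, mul_zero]
    have h4 : W + e a * Z = 0 := by
      have : W * (1 + e a * x) = W + e a * Z * (W * y) := by rw [← hZy]; ring
      rw [h3, hWy, mul_one] at this
      exact this.symm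
    have h5 : e a * Z + e a * Z = 0 := by
      rw [← two_mul, two, zero_mul]
    calc W = W + e a * Z - e a * Z := by ring
      _ = 0 - e a * Z := by rw [h4]
      _ = e a * Z := by linear_combination -h5
  rcases mul_eq_zero.mp h2 with h3 | h3
  · have hW1 : W = 1 := by linear_combination h3 - two
    have hZ : Z ^ 3 = 0 := by
      rw [← hW, hW1]; linear_combination two
    have hZ0 : Z = 0 := pow_eq_zero_iff (three_ne_zero) |>.mp hZ
    apply hW0
    rw [hWZ, hZ0, mul_zero]
  · set v : K := e (a * s) with hv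
    have hWv : W = 1 + v := by linear_combination h3 - (1 + v) * two
    have hZs : Z ^ 3 = e s ^ 3 := by
      have h4 : v ^ 2 + v = e s ^ 3 := by
        rw [hv, ← map_pow, ← map_pow, ← map_add, has]
      rw [← h4, ← hW, hWv]
      linear_combination (1 + v) * two
    have hcube : W ^ 3 = v ^ 3 := by
      rw [hWZ, mul_pow, hZs, hv, map_mul, mul_pow]
    apply hu
    rw [map_add, map_one, map_add, map_pow, ← hv]
    rw [hWv] at hcube
    linear_combination hcube - (v + v ^ 2) * two

/-- TASK COV2 -/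
theorem taskCov2 : TaskCov2 F := by
  intro X c D₁ D₂ z w x y h a s hX has
  have hXas : PowerSeries.X ∣ a * s := hX.mul_left a
  rw [eq_top_iff]
  intro p _
  -- the constants at p
  let e : (PowerSeries F) →+* X.residueField p := (X.evaluation ⊤ p trivial).hom.comp c
  have he : ∀ (W : X.Opens) (hp : p ∈ W) (b : (PowerSeries F)),
      (X.evaluation W p hp).hom (cst c W b) = e b := by
    intro W hp b
    exact congrArg (X.residue p).hom
      (X.presheaf.germ_res_apply (homOfLE (le_top : W ≤ ⊤)) p hp (c b))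
  have hres : ∀ (V W : X.Opens) (hVW : W ≤ V) (hp : p ∈ W) (t : Γ(X, V)),
      (X.evaluation W p hp).hom (rs hVW t) = (X.evaluation V p (hVW hp)).hom t := by
    intro V W hVW hp t
    exact congrArg (X.residue p).hom (X.presheaf.germ_res_apply (homOfLE hVW) p hp t)
  have hcov : p ∈ D₁ ⊔ D₂ := by rw [h.cov]; trivial
  by_contra hnot
  have hn1 : p ∉ X.basicOpen (1 + cst c D₂ a * x) := fun hh => hnot (Or.inl hh)
  have hn2 : p ∉ X.basicOpen ((1 + w) * ((1 + cst c D₁ (a * s)) + w)) :=
    fun hh => hnot (Or.inr hh)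
  have hE1 : ∀ (hp : p ∈ D₂), 1 + e a * (X.evaluation D₂ p hp).hom x = 0 := by
    intro hp
    have := (X.evaluation_eq_zero_iff_notMem_basicOpen p hp _).mpr hn1
    rw [← he D₂ hp a]
    simpa using this
  have hE2 : ∀ (hp : p ∈ D₁), (1 + (X.evaluation D₁ p hp).hom w) *
      ((1 + e (a * s)) + (X.evaluation D₁ p hp).hom w) = 0 := by
    intro hp
    have := (X.evaluation_eq_zero_iff_notMem_basicOpen p hp _).mpr hn2
    rw [← he D₁ hp (a * s)]
    simpa using this
  by_cases hp1 : p ∈ D₁
  · by_cases hp2 : p ∈ D₂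
    · have hp12 : p ∈ D₁ ⊓ D₂ := ⟨hp1, hp2⟩
      refine cov2_core e a s hX has ((X.evaluation D₁ p hp1).hom w)
        ((X.evaluation D₁ p hp1).hom z) ((X.evaluation D₂ p hp2).hom x)
        ((X.evaluation D₂ p hp2).hom y) ?_ ?_ ?_ (hE1 hp2) (hE2 hp1)
      · rw [← map_pow, ← map_pow, ← map_add, h.rel₁]
      · have := congrArg (X.evaluation (D₁ ⊓ D₂) p hp12).hom h.cmpw
        rw [map_mul, map_one, hres _ _ _ hp12, hres _ _ _ hp12] at this
        exact this
      · have := congrArg (X.evaluation (D₁ ⊓ D₂) p hp12).hom h.cmpz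
        rw [map_mul, hres _ _ _ hp12, hres _ _ _ hp12, hres _ _ _ hp12] at this
        exact this
    · have hw : (X.evaluation D₁ p hp1).hom w = 0 := by
        refine (X.evaluation_eq_zero_iff_notMem_basicOpen p hp1 _).mpr ?_
        rw [h.bo₁]
        exact fun hh => hp2 hh.2
      have h3 := hE2 hp1
      rw [hw, add_zero, add_zero, one_mul] at h3
      have h4 : e (1 + a * s) = 0 := by rw [map_add, map_one, h3]
      exact ((cov2_isUnit hXas).map e).ne_zero h4
  · have hp2 : p ∈ D₂ := by
      rcases hcov with hh | hh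
      · exact absurd hh hp1
      · exact hh
    have hy : (X.evaluation D₂ p hp2).hom y = 0 := by
      refine (X.evaluation_eq_zero_iff_notMem_basicOpen p hp2 _).mpr ?_
      rw [h.bo₂]
      exact fun hh => hp1 hh.1
    have hx3 : ((X.evaluation D₂ p hp2).hom x) ^ 3 = 0 := by
      rw [← map_pow, ← h.rel₂, map_add, map_pow, hy]; simp
    have hx : (X.evaluation D₂ p hp2).hom x = 0 := pow_eq_zero_iff three_ne_zero |>.mp hx3
    have h3 := hE1 hp2
    rw [hx, mul_zero, add_zero] at h3
    exact one_ne_zero h3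


end Pool.Agent.Y138.KZ
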