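import Pool.Agent.Y138.KZ.Tasks
import Pool.Agent.H835R5.T.NS

set_option autoImplicit false

open CategoryTheory AlgebraicGeometry TopologicalSpace Opposite Limits

namespace Pool.Agent.Y138.KZ

open Pool.Agent.H835R5

open HahnSeries Pool.Agent.H835R5.NS

variable {F : Type} [Field F] [CharP F 2]

theorem taskNS : TaskNS F := by
  intro m hm
  set I : Ideal (PowerSeries F) := Ideal.span {(PowerSeries.X : (PowerSeries F)) ^ m} with hI
  set Λ : Type := (PowerSeries F) ⧸ I with hΛ
  let q : (PowerSeries F) →+* Λ := Ideal.Quotient.mk I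
  refine ⟨M Λ, inferInstance, cc.comp q, ex, ey, et, (ey + 1) * et ^ 3, ey * et ^ 3, PU Λ, RV Λ,
    ?_, hrel, ext_, ?_, ?_, ?_, ?_, ?_, ?_, ?_, ?_⟩
  · have : q (PowerSeries.X ^ m) = 0 :=
      Ideal.Quotient.eq_zero_iff_mem.2 (Ideal.subset_span rfl)
    rw [RingHom.comp_apply, this, map_zero]
  · have h1 := hrel (Λ := Λ)
    have h2 := ext_ (Λ := Λ)
    have h3 : (ex : M Λ) ^ 3 * et ^ 3 = 1 := by rw [← mul_pow, h2, one_pow]
    linear_combination et ^ 3 * h1 + h3
  · have h1 := hrel (Λ := Λ)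
    have h2 := ext_ (Λ := Λ)
    have h3 : (ex : M Λ) ^ 3 * et ^ 3 = 1 := by rw [← mul_pow, h2, one_pow]
    linear_combination et ^ 3 * h1 + h3
  · intro f
    induction f using MvPolynomial.induction_on with
    | C a => rw [MvPolynomial.eval₂_C]; exact PU_cc _
    | add p q hp hq => rw [MvPolynomial.eval₂_add]; exact (PU Λ).add_mem hp hq
    | mul_X p i hp =>
      rw [MvPolynomial.eval₂_mul, MvPolynomial.eval₂_X]
      fin_cases i
      · exact PU_mul_x hp
      · exact PU_mul_y hp
  · intro a; exact RV_cc _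
  · -- x y'
    have h2 := ext_ (Λ := Λ)
    have h4 : (ex : M Λ) * ((ey + 1) * et ^ 3) = (ey + 1) * et ^ 2 := by
      linear_combination ((ey + 1) * et ^ 2) * h2
    rw [h4]
    refine ⟨PowerSeries.X ^ 2, 1, ?_, ?_⟩
    · simp only [ps, PowerSeries.coe_pow, PowerSeries.coe_X]
      change _ = tt ^ 2
      simp [ey, et, pow_succ, QuadraticAlgebra.re_mul, QuadraticAlgebra.im_mul,
        QuadraticAlgebra.re_one, QuadraticAlgebra.im_one]
    · simp [ey, et, ps, pow_succ, QuadraticAlgebra.re_mul, QuadraticAlgebra.im_mul,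
        QuadraticAlgebra.re_one, QuadraticAlgebra.im_one]
  · refine ⟨PowerSeries.X ^ 3, PowerSeries.X, ?_, ?_⟩
    · simp only [ps, PowerSeries.coe_pow, PowerSeries.coe_X]
      change _ = tt ^ 3
      simp [ey, et, pow_succ, QuadraticAlgebra.re_mul, QuadraticAlgebra.im_mul,
        QuadraticAlgebra.re_one, QuadraticAlgebra.im_one]
    · simp only [ps, PowerSeries.coe_X]
      change _ = tt ^ 2 * tt
      simp [ey, et, pow_succ, QuadraticAlgebra.re_mul, QuadraticAlgebra.im_mul,
        QuadraticAlgebra.re_one, QuadraticAlgebra.im_one]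
  · -- y y1'
    have h1 := hrel (Λ := Λ)
    have h2 := ext_ (Λ := Λ)
    have h3 : (ex : M Λ) ^ 3 * et ^ 3 = 1 := by rw [← mul_pow, h2, one_pow]
    have h4 : (ey : M Λ) * (ey * et ^ 3) = 1 - ey * et ^ 3 := by
      linear_combination et ^ 3 * h1 + h3
    rw [h4]
    refine ⟨1, -PowerSeries.X, ?_, ?_⟩
    · simp [ey, et, ps, pow_succ, QuadraticAlgebra.re_mul, QuadraticAlgebra.im_mul,
        QuadraticAlgebra.re_one, QuadraticAlgebra.im_one]
    · have h5 : ps (-PowerSeries.X : PowerSeries Λ) = -tt := by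
        have := map_neg (HahnSeries.ofPowerSeries ℤ Λ) PowerSeries.X
        rw [← ps_X]
        exact this
      rw [h5]
      simp [ey, et, pow_succ, QuadraticAlgebra.re_mul, QuadraticAlgebra.im_mul,
        QuadraticAlgebra.re_one, QuadraticAlgebra.im_one]
  · intro u hu v hv huv
    obtain ⟨-, q1, -, hq1⟩ := hu
    obtain ⟨-, q2, -, hq2⟩ := hv
    have h1 := congrArg (fun z : M Λ => z.im.coeff 1) huv
    simp only [QuadraticAlgebra.im_add, HahnSeries.coeff_add] at h1
    rw [hq1, hq2, aeval_coeff, ps_coeff, add_zero] at h1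
    have h2 : ((cc.comp q) (PowerSeries.X ^ (m - 1)) * (ey * et) : M Λ).im =
        HahnSeries.C (q (PowerSeries.X ^ (m - 1))) * tt := by
      rw [QuadraticAlgebra.im_mul, RingHom.comp_apply, cc_re, cc_im]
      simp [ey, et, QuadraticAlgebra.re_mul, QuadraticAlgebra.im_mul]
    rw [h2] at h1
    have h3 : (HahnSeries.C (q (PowerSeries.X ^ (m - 1))) * tt : LaurentSeries Λ).coeff 1 =
        q (PowerSeries.X ^ (m - 1)) := by
      unfold tt
      rw [HahnSeries.C_apply, single_mul_single]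
      simp
    rw [h3] at h1
    have h4 := Ideal.Quotient.eq_zero_iff_mem.1 h1
    rw [hI, Ideal.mem_span_singleton, PowerSeries.X_pow_dvd_iff] at h4
    have h5 := h4 (m - 1) (by omega)
    rw [PowerSeries.coeff_X_pow_self] at h5
    exact one_ne_zero h5


end Pool.Agent.Y138.KZ
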