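import Pool.Agent.Y138.KZ.Tasks
import Pool.Agent.H835R5.T.Spl

set_option autoImplicit false

open CategoryTheory AlgebraicGeometry TopologicalSpace Opposite Limits

namespace Pool.Agent.Y138.KZ

open Pool.Agent.H835R5

open Pool.Agent.H835R5.Spl

variable {F : Type} [Field F] [CharP F 2]

theorem taskSpl : TaskSpl F := by
  intro NS X c D₁ D₂ z w x y hEC M a hM ha U V' hU hV' h₂ g gi y1' hy1' hg hgi u v heq
  obtain ⟨N, _, e, nx, ny, nx', ny', ny1', PU, RV, he, hrel, hxx, hyy, hyy1, hPU, hRV, hxy, hy', hyy1',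
    hns⟩ := NS M hM
  obtain ⟨ev, hev⟩ := exists_ev hEC e nx ny hrel
  have he' : ∀ b : (PowerSeries F), e (b * PowerSeries.X ^ M) = 0 := fun b => by rw [map_mul, he, mul_zero]
  have hea : e a = 0 := by
    obtain ⟨b, rfl⟩ := ha
    rw [mul_comm]; exact he' b
  have evc : ∀ b : (PowerSeries F), ev (cst c D₂ b) = e b := by
    intro b
    have := hev (MvPolynomial.C b)
    rwa [MvPolynomial.eval₂_C, MvPolynomial.eval₂_C] at this
  have evx : ev x = nx := by
    have := hev (MvPolynomial.X 0)
    rwa [MvPolynomial.eval₂_X, MvPolynomial.eval₂_X] at this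
  have evy : ev y = ny := by
    have := hev (MvPolynomial.X 1)
    rwa [MvPolynomial.eval₂_X, MvPolynomial.eval₂_X] at this
  have evPU : ∀ t, ev t ∈ PU := by
    intro t
    obtain ⟨f, rfl⟩ := hEC.gen₂ t
    rw [hev]; exact hPU f
  -- the element defining the small open
  let s0 : (PowerSeries F) := a * PowerSeries.X ^ M
  let fU : Γ(X, D₂) := 1 + cst c D₂ a * x
  let r : Γ(X, D₂) := 1 + (1 + cst c D₂ s0) * y
  let hW : Γ(X, D₂) := fU * (y * ((1 + y) * r))
  have evfU : ev fU = 1 := by
    simp only [fU, map_add, map_mul, map_one, evc, hea, zero_mul, add_zero]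
  have evr : ev r = 1 + ny := by
    simp only [r, map_add, map_mul, map_one, evc, evy, s0, hea, zero_mul, add_zero, one_mul]
  have unY : IsUnit ny := IsUnit.of_mul_eq_one ny' hyy
  have unY1 : IsUnit (1 + ny) := IsUnit.of_mul_eq_one ny1' hyy1
  have evW : IsUnit (ev hW) := by
    have : ev hW = ny * ((1 + ny) * (1 + ny)) := by
      simp only [hW, map_mul, evfU, evr, map_add, map_one, evy, one_mul]
    rw [this]
    exact unY.mul (unY1.mul unY1)
  obtain ⟨E, hE⟩ := exists_loc hEC.af₂ hW ev evW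
  have hbo : X.basicOpen hW = X.basicOpen fU ⊓ (X.basicOpen y ⊓ (X.basicOpen (1 + y) ⊓ X.basicOpen r)) := by
    simp only [hW, Scheme.basicOpen_mul]
  have hWD₂ : X.basicOpen hW ≤ D₂ := X.basicOpen_le hW
  have hWU0 : X.basicOpen hW ≤ X.basicOpen fU := by rw [hbo]; exact inf_le_left
  have hWy : X.basicOpen hW ≤ X.basicOpen y := by
    rw [hbo]; exact inf_le_right.trans inf_le_left
  have hWy1 : X.basicOpen hW ≤ X.basicOpen (1 + y) := by
    rw [hbo]; exact inf_le_right.trans (inf_le_right.trans inf_le_left)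
  have hWr : X.basicOpen hW ≤ X.basicOpen r := by
    rw [hbo]; exact inf_le_right.trans (inf_le_right.trans inf_le_right)
  have hW12 : X.basicOpen hW ≤ D₁ ⊓ D₂ := by rw [← hEC.bo₂]; exact hWy
  have hWD₁ : X.basicOpen hW ≤ D₁ := hW12.trans inf_le_left
  -- relations on the small open
  have cw : rh hWD₁ w * rh hWD₂ y = 1 := by
    have := congrArg (rh hW12) hEC.cmpw
    rw [map_mul, map_one, rs_eq, rs_eq, rh_rh, rh_rh] at this
    exact this
  have cz : rh hWD₁ z * rh hWD₂ y = rh hWD₂ x := by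
    have := congrArg (rh hW12) hEC.cmpz
    rw [map_mul, rs_eq, rs_eq, rs_eq, rh_rh, rh_rh, rh_rh] at this
    exact this
  let fV : Γ(X, D₁) := (1 + w) * ((1 + cst c D₁ s0) + w)
  have unV : IsUnit (rh hWD₁ fV) := by
    have h1 := isUnit_res (1 + y) hWD₂ hWy1
    have h2 := isUnit_res r hWD₂ hWr
    have h3 : rh hWD₁ fV * (rh hWD₂ y * rh hWD₂ y) = rh hWD₂ (1 + y) * rh hWD₂ r := by
      simp only [fV, r, map_mul, map_add, map_one, rh_cst]
      linear_combination (rh hWD₂ y * (1 + cst c (X.basicOpen hW) s0) + rh hWD₁ w * rh hWD₂ y + 1 + rh hWD₂ y) * cw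
    exact isUnit_of_mul_isUnit_left (h3 ▸ h1.mul h2)
  have hWV0 : X.basicOpen hW ≤ X.basicOpen fV := le_basicOpen fV hWD₁ unV
  have hWU : X.basicOpen hW ≤ U := by rw [hU]; exact hWU0
  have hWV : X.basicOpen hW ≤ V' := by rw [hV']; exact hWV0
  have hWUV : X.basicOpen hW ≤ U ⊓ V' := le_inf hWU hWV
  -- values of `E`
  have Ec : ∀ b, E (cst c _ b) = e b := by
    intro b
    rw [← rh_cst c hWD₂, hE, evc]
  have Ey : E (rh hWD₂ y) = ny := by rw [hE, evy]
  have Ex : E (rh hWD₂ x) = nx := by rw [hE, evx]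
  have Ew : E (rh hWD₁ w) = ny' := by
    have := congrArg E cw
    rw [map_mul, map_one, Ey] at this
    linear_combination ny' * this - E (rh hWD₁ w) * hyy
  have Ez : E (rh hWD₁ z) = nx * ny' := by
    have := congrArg E cz
    rw [map_mul, Ey, Ex] at this
    linear_combination ny' * this - E (rh hWD₁ z) * hyy
  have hRVf : ∀ f : MvPolynomial (Fin 2) (PowerSeries F),
      E (rh hWD₁ (MvPolynomial.eval₂ (cst c D₁) ![z, w] f)) ∈ RV := by
    intro f
    induction f using MvPolynomial.induction_on with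
    | C b =>
      rw [MvPolynomial.eval₂_C, rh_cst, Ec]
      exact hRV b
    | add p q hp hq =>
      rw [MvPolynomial.eval₂_add, map_add, map_add]
      exact RV.add_mem hp hq
    | mul_X p i hp =>
      rw [MvPolynomial.eval₂_mul, MvPolynomial.eval₂_X, map_mul, map_mul]
      refine RV.mul_mem hp ?_
      fin_cases i
      · change E (rh hWD₁ z) ∈ RV
        rw [Ez]; exact hxy
      · change E (rh hWD₁ w) ∈ RV
        rw [Ew]; exact hy'
  -- the two summands
  have Eu : E (rh hWU u) ∈ PU := by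
    subst hU
    obtain ⟨n, b, hb⟩ := exists_surj hEC.af₂ fU u
    have := congrArg (fun t => E (rh hWU t)) hb
    simp only [map_mul, map_pow, rh_rh] at this
    rw [hE, hE, evfU, one_pow, mul_one] at this
    rw [this]
    exact evPU b
  have Ev : E (rh hWV v) ∈ RV := by
    subst hV'
    obtain ⟨n, b, hb⟩ := exists_surj hEC.af₁ fV v
    have := congrArg (fun t => E (rh hWV t)) hb
    simp only [map_mul, map_pow, rh_rh] at this
    obtain ⟨f, rfl⟩ := hEC.gen₁ b
    have hb' := hRVf f
    have hfV : E (rh hWD₁ fV) = (1 + ny') * (1 + ny') := by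
      simp only [fV, map_mul, map_add, map_one, rh_cst, Ec, Ew, s0, hea, zero_mul, add_zero]
    have hinv : (1 + ny') * (ny * ny1') = 1 := by
      linear_combination ny1' * hyy + hyy1
    have e1 : E (rh hWV v) = E (rh hWD₁ (MvPolynomial.eval₂ (cst c D₁) ![z, w] f)) *
        ((ny * ny1') * (ny * ny1')) ^ n := by
      rw [hfV] at this
      have h5 : ((1 + ny') * (1 + ny')) ^ n * ((ny * ny1') * (ny * ny1')) ^ n = 1 := by
        rw [← mul_pow]
        have : (1 + ny') * (1 + ny') * (ny * ny1' * (ny * ny1')) = 1 := by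
          linear_combination ((1 + ny') * (ny * ny1') + 1) * hinv
        rw [this, one_pow]
      rw [← this, mul_assoc, h5, mul_one]
    rw [e1]
    exact RV.mul_mem hb' (RV.pow_mem (RV.mul_mem hyy1' hyy1') n)
  -- conclusion
  have Ey1 : E (rh hWUV y1') = ny1' := by
    have := congrArg (fun t => E (rh hWUV t)) hy1'
    simp only [map_mul, map_add, map_one, rs_eq, rh_rh] at this
    rw [Ey] at this
    linear_combination ny1' * this - E (rh hWUV y1') * hyy1
  have Eg : E (rh hWUV g) = 1 := by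
    rw [hg]
    simp only [map_mul, map_add, map_one, rh_cst, Ec]
    rw [he, zero_mul, add_zero]
  have Egi : E (rh hWUV gi) = 1 := by
    have := congrArg (fun t => E (rh hWUV t)) hgi
    simp only [map_mul, map_one] at this
    rwa [Eg, one_mul] at this
  have hfin := congrArg (fun t => E (rh hWUV t)) heq
  simp only [map_mul, map_add, map_pow, rs_eq, rh_rh, rh_cst, Ec] at hfin
  rw [Egi, one_mul, Ex, Ey1] at hfin
  refine hns _ Eu _ Ev ?_
  rw [← hfin, ← map_pow]
  linear_combination e (PowerSeries.X ^ (M - 1)) * (-ny * nx' * hyy1 + nx' * ny1' * hrel +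
    ny1' * nx ^ 2 * hxx)


end Pool.Agent.Y138.KZ
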