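import Pool.Agent.Y138.KZ.Core
import Pool.Agent.Y138.KZ.Cov2
import Pool.Agent.Y138.KZ.Der
import Pool.Agent.Y138.KZ.NS
import Pool.Agent.Y138.KZ.Spl
import Pool.Agent.H835R5.Main
import Pool.Agent.H835R5.Asm

set_option autoImplicit false

open CategoryTheory AlgebraicGeometry TopologicalSpace Opposite Limits

namespace Pool.Agent.Y138.KZ

open Pool.Agent.H835R5 Pool.Agent.Helper198.Sch

attribute [local instance] MvPolynomial.gradedAlgebra

variable {F : Type} [Field F] [CharP F 2]

theorem taskBase : TaskBase F := by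
  have h2 : IsAdicComplete (IsLocalRing.maximalIdeal (PowerSeries F)) (PowerSeries F) := by
    rw [PowerSeries.maximalIdeal_eq_span_X]
    infer_instance
  have h3 : HenselianRing (PowerSeries F) (IsLocalRing.maximalIdeal (PowerSeries F)) := inferInstance
  refine ⟨inferInstance, h2, ?_, ?_⟩
  · refine { is_henselian := ?_ }
    intro f hf a₀ h₁ h₂
    exact h3.is_henselian f hf a₀ h₁ (h₂.map _)
  · have hch : CharP (PowerSeries F) 2 :=
      charP_of_injective_ringHom (f := PowerSeries.C (R := F)) PowerSeries.C_injective 2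
    refine (CharP.charP_iff_prime_eq_zero Nat.prime_two).mpr ?_
    rw [← map_natCast (IsLocalRing.residue (PowerSeries F)), CharP.cast_eq_zero, map_zero]

lemma thick_cst {X : Scheme.{0}} (f : X ⟶ Spec (.of (PowerSeries F))) (n : ℕ) (W : X.Opens) :
    ((thickening f PowerSeries.X n).app W).hom (cst (cF f) W (PowerSeries.X ^ n)) = 0 := by
  rw [app_cst]
  have h1 : ((thickening f PowerSeries.X n).appTop).hom (cF f (PowerSeries.X ^ n)) = 0 := by
    have h2 : (thickening f PowerSeries.X n ≫ f).appTop = (pullback.snd f (Spec.map (CommRingCat.ofHom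
      (Ideal.Quotient.mk (Ideal.span {(PowerSeries.X : (PowerSeries F)) ^ n})))) ≫
        Spec.map (CommRingCat.ofHom
      (Ideal.Quotient.mk (Ideal.span {(PowerSeries.X : (PowerSeries F)) ^ n})))).appTop :=
      congrArg Scheme.Hom.appTop (pullback.condition (f := f))
    have h3 := congrArg (fun φ => φ.hom ((Scheme.ΓSpecIso (.of (PowerSeries F))).inv.hom
      (PowerSeries.X ^ n))) h2
    have h4 : ((Spec.map (CommRingCat.ofHom
      (Ideal.Quotient.mk (Ideal.span {(PowerSeries.X : (PowerSeries F)) ^ n})))).appTop).hom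
        ((Scheme.ΓSpecIso (.of (PowerSeries F))).inv.hom (PowerSeries.X ^ n)) = 0 := by
      have h5 := Scheme.ΓSpecIso_inv_naturality (CommRingCat.ofHom
        (Ideal.Quotient.mk (Ideal.span {(PowerSeries.X : (PowerSeries F)) ^ n})))
      have h6 := congrArg (fun φ => φ.hom ((PowerSeries.X : (PowerSeries F)) ^ n)) h5
      have h7 : (Ideal.Quotient.mk (Ideal.span {(PowerSeries.X : (PowerSeries F)) ^ n}))
        (PowerSeries.X ^ n) = 0 := Ideal.Quotient.eq_zero_iff_mem.2 (Ideal.mem_span_singleton_self _)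
      refine h6.symm.trans ?_
      simp only [CommRingCat.hom_comp, CommRingCat.hom_ofHom, RingHom.comp_apply]
      rw [h7, map_zero]
    refine h3.trans ?_
    simp only [Scheme.Hom.comp_appTop, CommRingCat.hom_comp, RingHom.comp_apply]
    refine (congrArg _ h4).trans (map_zero _)
  rw [h1, map_zero]

theorem main (hC : TaskCov2 F) (hS : TaskSpl F) (hA : TaskAsm) :
    ∃ (X : Scheme.{0}) (f : X ⟶ Spec (.of (PowerSeries F))), IsIntegral X ∧ SmoothOfRelativeDimension 1 f ∧
      IsProjOver f ∧ KerNotDivisible f PowerSeries.X 2 ∧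
      ¬ HasKerzFiltration f PowerSeries.X 2 := by
  have hE := taskEC Pool.Agent.H87R3.KZ.taskCh taskDom taskCov taskCmp (PowerSeries F)
  have : CharP (PowerSeries F) 2 := charP_of_injective_ringHom (PowerSeries.C_injective (R := F)) 2
  have key : ∀ n : ℕ, ∃ L : HOne (XE (PowerSeries F)), resPush (thickening (strE (PowerSeries F)) PowerSeries.X n) L = 0 ∧
      ∀ L' : HOne (XE (PowerSeries F)), L ≠ 2 • L' := by
    intro m
    obtain ⟨d, hd, hx, hy⟩ := taskDer _ _ _ _ _ _ _ _ hE
    obtain ⟨U, V', g, gi, hh, hcov, hgi, hg, hns⟩ := core hC hS taskNS hE d hd hx hy m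
    have h2 : (2 : Γ(XE (PowerSeries F), ⊤)) = 0 := by
      have h := congrArg (cJ (JE (PowerSeries F))) (two_PS (F := F))
      simpa only [map_ofNat, map_zero] using h
    have hg1 : ((thickening (strE (PowerSeries F)) PowerSeries.X m).app (U ⊓ V')).hom g = 1 := by
      rw [hg, map_add, map_mul, map_one]
      have h := thick_cst (strE (PowerSeries F)) m (U ⊓ V')
      have h' : ((thickening (strE (PowerSeries F)) PowerSeries.X m).app (U ⊓ V')).hom
        (cst (cJ (JE (PowerSeries F))) (U ⊓ V') (PowerSeries.X ^ m)) = 0 := h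
      rw [h', zero_mul, add_zero]
    obtain ⟨L, hL, hL'⟩ := hA (XE (PowerSeries F)) _ (thickening (strE (PowerSeries F)) PowerSeries.X m) d h2 U V' g gi
      hcov hgi hg1 hns
    exact ⟨L, hL, fun L' h => hL' L' (by rw [h, two_nsmul])⟩
  refine ⟨XE (PowerSeries F), strE (PowerSeries F), hE.int, taskSm Pool.Agent.H87R3.KZ.taskCh taskCov (PowerSeries F),
    ⟨2, emb (JE (PowerSeries F)) (Equiv.refl _), inferInstance, emb_str _ _⟩, key, ?_⟩
  rintro ⟨F, -, hI, hII⟩
  obtain ⟨m, hm, hF⟩ := hII 1 le_rfl 1 le_rfl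
  obtain ⟨L, hL, hL'⟩ := key m
  obtain ⟨b, -, hb⟩ := hF L (condI_ker (hI m hm) L hL)
  apply hL' b
  rw [hb, pow_one]


end Pool.Agent.Y138.KZ
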