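import Pool.Agent.H835R5.Fin

set_option autoImplicit false

open CategoryTheory AlgebraicGeometry TopologicalSpace Opposite Limits

namespace Pool.Agent.Y138.KZ

open Pool.Agent.H835R5

attribute [local instance] MvPolynomial.gradedAlgebra

theorem two_PS {F : Type} [Field F] [CharP F 2] : (2 : PowerSeries F) = 0 := by
  have : CharP (PowerSeries F) 2 := charP_of_injective_ringHom PowerSeries.C_injective 2
  exact CharTwo.two_eq_zero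

/-- TASK DER: the derivation `d/dt`. -/
def TaskDer (F : Type) [Field F] : Prop := ∀ (X : Scheme.{0}) (c : (PowerSeries F) →+* Γ(X, ⊤)) (D₁ D₂ : X.Opens)
  (z w : Γ(X, D₁)) (x y : Γ(X, D₂)), EC X c D₁ D₂ z w x y →
  ∃ d : DerX X, (∀ (U : X.Opens) (a : (PowerSeries F)), d.D U (cst c U a) =
    cst c U (PowerSeries.derivative (F) a)) ∧ d.D D₂ x = 0 ∧ d.D D₂ y = 0

/-- TASK NS: the ring `Λ((τ))[y]`, `Λ = F[t]/t^m`, `x = 1/τ`. `PU`: the polynomials in `x, y`;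
`RV`: the functions regular at infinity. -/
def TaskNS (F : Type) [Field F] : Prop := ∀ m : ℕ, 1 ≤ m → ∃ (M : Type) (_ : CommRing M) (e : (PowerSeries F) →+* M) (x y x' y' y1' : M)
  (PU : AddSubgroup M) (RV : Subring M), e (PowerSeries.X ^ m) = 0 ∧ y ^ 2 + y = x ^ 3 ∧
  x * x' = 1 ∧ y * y' = 1 ∧ (1 + y) * y1' = 1 ∧
  (∀ f : MvPolynomial (Fin 2) (PowerSeries F), MvPolynomial.eval₂ e ![x, y] f ∈ PU) ∧
  (∀ a, e a ∈ RV) ∧ x * y' ∈ RV ∧ y' ∈ RV ∧ y * y1' ∈ RV ∧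
  ∀ u ∈ PU, ∀ v ∈ RV, e (PowerSeries.X ^ (m - 1)) * (y * x') ≠ u + v

/-- TASK HEN: a Hensel lemma. -/
def TaskHen (F : Type) [Field F] : Prop := ∀ s : (PowerSeries F), PowerSeries.X ∣ s → ∃ a : (PowerSeries F), s ^ 2 ∣ a ∧
  (a * s) ^ 2 + a * s = s ^ 3

/-- TASK COV2 -/
def TaskCov2 (F : Type) [Field F] : Prop := ∀ (X : Scheme.{0}) (c : (PowerSeries F) →+* Γ(X, ⊤)) (D₁ D₂ : X.Opens)
  (z w : Γ(X, D₁)) (x y : Γ(X, D₂)), EC X c D₁ D₂ z w x y →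
  ∀ (a s : (PowerSeries F)), PowerSeries.X ∣ s → (a * s) ^ 2 + a * s = s ^ 3 →
  X.basicOpen (1 + cst c D₂ a * x) ⊔
    X.basicOpen ((1 + w) * ((1 + cst c D₁ (a * s)) + w)) = ⊤

/-- TASK COR -/
def TaskCor (F : Type) [Field F] : Prop := ∀ (X : Scheme.{0}) (c : (PowerSeries F) →+* Γ(X, ⊤)) (D₁ D₂ : X.Opens)
  (z w : Γ(X, D₁)) (x y : Γ(X, D₂)), EC X c D₁ D₂ z w x y →
  ∀ (a s : (PowerSeries F)), PowerSeries.X ∣ s → (a * s) ^ 2 + a * s = s ^ 3 →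
  ∀ (W : X.Opens) (h₁ : W ≤ D₁) (h₂ : W ≤ D₂),
  IsUnit (rs h₂ (1 + cst c D₂ a * x)) →
  IsUnit (rs h₁ ((1 + w) * ((1 + cst c D₁ (a * s)) + w))) →
  IsUnit (rs h₂ y) ∧ IsUnit (1 + rs h₂ y) ∧
  ∃ g gi y1' : Γ(X, W), (1 + rs h₂ y) * y1' = 1 ∧
    g = 1 + cst c W s * ((rs h₂ x) ^ 2 * y1') ∧ g * gi = 1

/-- TASK SPL: the section does not split. -/
def TaskSpl (F : Type) [Field F] : Prop := TaskNS F → ∀ (X : Scheme.{0}) (c : (PowerSeries F) →+* Γ(X, ⊤)) (D₁ D₂ : X.Opens)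
  (z w : Γ(X, D₁)) (x y : Γ(X, D₂)), EC X c D₁ D₂ z w x y →
  ∀ (M : ℕ) (a : (PowerSeries F)), 1 ≤ M → PowerSeries.X ^ M ∣ a →
  ∀ (U V' : X.Opens), U = X.basicOpen (1 + cst c D₂ a * x) →
  V' = X.basicOpen ((1 + w) * ((1 + cst c D₁ (a * PowerSeries.X ^ M)) + w)) →
  ∀ (h₂ : U ⊓ V' ≤ D₂) (g gi y1' : Γ(X, U ⊓ V')), (1 + rs h₂ y) * y1' = 1 →
  g = 1 + cst c (U ⊓ V') (PowerSeries.X ^ M) * ((rs h₂ x) ^ 2 * y1') → g * gi = 1 →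
  ∀ (u : Γ(X, U)) (v : Γ(X, V')),
    gi * (cst c (U ⊓ V') (PowerSeries.X ^ (M - 1)) * ((rs h₂ x) ^ 2 * y1')) ≠
      rs inf_le_left u + rs inf_le_right v

/-- the base ring -/
def TaskBase (F : Type) [Field F] : Prop := IsDiscreteValuationRing (PowerSeries F) ∧ IsAdicComplete (IsLocalRing.maximalIdeal (PowerSeries F)) (PowerSeries F) ∧
  HenselianLocalRing (PowerSeries F) ∧ CharP (IsLocalRing.ResidueField (PowerSeries F)) 2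


end Pool.Agent.Y138.KZ
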